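import Mathlib

set_option autoImplicit false

open NumberTheorySymbols

namespace Pool.Agent.Results.MP_1d631c_nt.NoRepresentation

/-- If every prime divisor `p` of `a` divides `b + c` and not `b`, then `J(-bc | a) = 1`. -/
theorem jacobi_eq_one (a b c : ℕ) (hcop : Nat.Coprime a b) (hcop' : Nat.Coprime a c)
    (h : ∀ p : ℕ, p.Prime → p ∣ a → p ∣ b + c) :
    jacobiSym (-((b : ℤ) * c)) a = 1 := by
  have hg : Int.gcd (-((b : ℤ) * c)) a = 1 := by
    rw [Int.neg_gcd]
    have : Int.gcd ((b : ℤ) * c) a = Nat.gcd (b * c) a := by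
      rw [← Nat.cast_mul, Int.gcd_natCast_natCast]
    rw [this]
    exact (Nat.Coprime.mul_left hcop.symm hcop'.symm)
  rcases jacobiSym.eq_one_or_neg_one hg with h1 | h1
  · exact h1
  · exfalso
    obtain ⟨p, hp, hpa, hp1⟩ := jacobiSym.eq_neg_one_at_prime_divisor_of_eq_neg_one h1
    have hpb : ¬ p ∣ b := fun hb => by
      have := Nat.dvd_gcd hpa hb
      rw [hcop] at this
      exact hp.one_lt.ne' (Nat.dvd_one.mp this)
    have hbc := h p hp hpa
    have hmod : (-((b : ℤ) * c)) % (p : ℤ) = ((b : ℤ) ^ 2) % (p : ℤ) := by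
      apply Int.ModEq.symm
      apply (Int.modEq_iff_dvd).mpr
      have : (p : ℤ) ∣ (b : ℤ) + c := by exact_mod_cast hbc
      obtain ⟨k, hk⟩ := this
      refine ⟨-(b * k), ?_⟩
      have : (c : ℤ) = p * k - b := by linarith
      rw [this]; ring
    rw [jacobiSym.mod_left' hmod] at hp1
    have hg2 : Int.gcd (b : ℤ) p = 1 := by
      rw [Int.gcd_natCast_natCast]
      exact ((Nat.Prime.coprime_iff_not_dvd hp).mpr hpb).symm
    rw [jacobiSym.sq_one' hg2] at hp1
    norm_num at hp1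

/-- The arithmetic core: three pairwise coprime positive integers `a, b` odd, `c = 2 ^ k * c'`
with `c'` odd and `k ≥ 1`, with sum divisible by `8`, cannot satisfy the divisibility conditions. -/
theorem core (a b c k : ℕ) (ha : Odd a) (hb : Odd b) (hc : Odd c) (hk : 1 ≤ k)
    (hab : Nat.Coprime a b) (hac : Nat.Coprime a c) (hbc : Nat.Coprime b c)
    (h8 : 8 ∣ a + b + 2 ^ k * c)
    (h1 : ∀ p : ℕ, p.Prime → p ∣ a → p ∣ b + 2 ^ k * c)
    (h2 : ∀ p : ℕ, p.Prime → p ∣ b → p ∣ 2 ^ k * c + a)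
    (h3 : ∀ p : ℕ, p.Prime → p ∣ c → p ∣ a + b) : False := by
  have ha2 : Nat.Coprime a (2 ^ k) := Nat.Coprime.pow_right k (Nat.coprime_two_right.mpr ha)
  have hb2 : Nat.Coprime b (2 ^ k) := Nat.Coprime.pow_right k (Nat.coprime_two_right.mpr hb)
  have e1 := jacobi_eq_one a b (2 ^ k * c) hab (Nat.Coprime.mul_right ha2 hac) h1
  have e2 := jacobi_eq_one b (2 ^ k * c) a (Nat.Coprime.mul_right hb2 hbc) hab.symm h2
  have e3 := jacobi_eq_one c a b hac.symm hbc.symm h3
  push_cast at e1 e2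
  rw [jacobiSym.neg _ ha, jacobiSym.mul_left, jacobiSym.mul_left, jacobiSym.pow_left] at e1
  rw [jacobiSym.neg _ hb, jacobiSym.mul_left, jacobiSym.mul_left, jacobiSym.pow_left] at e2
  rw [jacobiSym.neg _ hc, jacobiSym.mul_left] at e3
  rw [jacobiSym.at_two ha] at e1
  rw [jacobiSym.at_two hb] at e2
  have r1 := jacobiSym.quadratic_reciprocity ha hb
  have r2 := jacobiSym.quadratic_reciprocity ha hc
  have r3 := jacobiSym.quadratic_reciprocity hb hc
  have s1 : jacobiSym (b : ℤ) a ^ 2 = 1 := jacobiSym.sq_one (by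
    rw [Int.gcd_natCast_natCast]; exact hab.symm)
  have s2 : jacobiSym (c : ℤ) a ^ 2 = 1 := jacobiSym.sq_one (by
    rw [Int.gcd_natCast_natCast]; exact hac.symm)
  have s3 : jacobiSym (c : ℤ) b ^ 2 = 1 := jacobiSym.sq_one (by
    rw [Int.gcd_natCast_natCast]; exact hbc.symm)
  rw [r1] at e2
  rw [r2, r3] at e3
  have key : (ZMod.χ₄ a * ZMod.χ₄ b * ZMod.χ₄ c) *
      ((-1) ^ (a / 2 * (b / 2)) * (-1) ^ (a / 2 * (c / 2)) * (-1) ^ (b / 2 * (c / 2))) *
      (ZMod.χ₈ a * ZMod.χ₈ b) ^ k = 1 := by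
    have e := congrArg₂ (· * ·) (congrArg₂ (· * ·) e1 e2) e3
    simp only [mul_one] at e
    refine Eq.trans ?_ e
    calc _ = (ZMod.χ₄ a * ZMod.χ₄ b * ZMod.χ₄ c) *
      ((-1) ^ (a / 2 * (b / 2)) * (-1) ^ (a / 2 * (c / 2)) * (-1) ^ (b / 2 * (c / 2))) *
      (ZMod.χ₈ a * ZMod.χ₈ b) ^ k * (jacobiSym (b : ℤ) a ^ 2 * jacobiSym (c : ℤ) a ^ 2 *
        jacobiSym (c : ℤ) b ^ 2) := by rw [s1, s2, s3]; ring
      _ = _ := by ring
  have par : ∀ m n : ℕ, ((-1 : ℤ)) ^ (m * n) = if m % 2 = 1 ∧ n % 2 = 1 then -1 else 1 := by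
    intro m n
    split_ifs with hmn
    · exact Odd.neg_one_pow (Nat.odd_mul.mpr ⟨Nat.odd_iff.mpr hmn.1, Nat.odd_iff.mpr hmn.2⟩)
    · apply Even.neg_one_pow
      rw [Nat.even_mul, Nat.even_iff, Nat.even_iff]
      omega
  rw [par, par, par, ZMod.χ₄_nat_eq_if_mod_four, ZMod.χ₄_nat_eq_if_mod_four,
    ZMod.χ₄_nat_eq_if_mod_four, ZMod.χ₈_nat_eq_if_mod_eight, ZMod.χ₈_nat_eq_if_mod_eight] at key
  have ha' := Nat.odd_iff.mp ha
  have hb' := Nat.odd_iff.mp hb
  have hc' := Nat.odd_iff.mp hc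
  rw [show a % 4 = a % 8 % 4 by omega, show a % 2 = a % 8 % 2 by omega,
    show a / 2 % 2 = a % 8 / 2 % 2 by omega, show b % 4 = b % 8 % 4 by omega,
    show b % 2 = b % 8 % 2 by omega, show b / 2 % 2 = b % 8 / 2 % 2 by omega,
    show c % 2 = c % 4 % 2 by omega, show c / 2 % 2 = c % 4 / 2 % 2 by omega] at key
  have hA : a % 8 = 1 ∨ a % 8 = 3 ∨ a % 8 = 5 ∨ a % 8 = 7 := by omega
  have hB : b % 8 = 1 ∨ b % 8 = 3 ∨ b % 8 = 5 ∨ b % 8 = 7 := by omega
  have hC : c % 4 = 1 ∨ c % 4 = 3 := by omega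
  rcases (show k = 1 ∨ k = 2 ∨ 3 ≤ k by omega) with rfl | rfl | hk3
  · rcases hA with h | h | h | h <;> rcases hB with h' | h' | h' | h' <;>
      rcases hC with h'' | h'' <;>
      first
      | (exfalso; omega)
      | (simp [h, h', h''] at key)
  · rcases hA with h | h | h | h <;> rcases hB with h' | h' | h' | h' <;>
      rcases hC with h'' | h'' <;>
      first
      | (exfalso; omega)
      | (simp [h, h', h''] at key)
  · have h8' : 8 ∣ a + b := by
      have : 8 ∣ 2 ^ k * c := Dvd.dvd.mul_right (by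
        obtain ⟨j, rfl⟩ := Nat.exists_eq_add_of_le hk3
        exact ⟨2 ^ j, by rw [pow_add]; norm_num⟩) c
      exact (Nat.dvd_add_left this).mp h8
    rcases hA with h | h | h | h <;> rcases hB with h' | h' | h' | h' <;>
      rcases hC with h'' | h'' <;>
      first
      | (exfalso; omega)
      | (simp [h, h', h''] at key)

/-- The arithmetic core, with the even entry last. -/
theorem core' (a b c : ℕ) (ha : Odd a) (hb : Odd b) (hc : Even c) (hc0 : 0 < c)
    (hab : Nat.Coprime a b) (hac : Nat.Coprime a c) (hbc : Nat.Coprime b c)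
    (h8 : 8 ∣ a + b + c)
    (h : ∀ p : ℕ, p.Prime → p ∣ a * b * c → p ∣ a + b + c) : False := by
  obtain ⟨k, c', hc', rfl⟩ := Nat.exists_eq_two_pow_mul_odd (n := c) hc0.ne'
  have hk : 1 ≤ k := by
    rcases Nat.eq_zero_or_pos k with rfl | hk
    · exfalso
      simp only [pow_zero, one_mul] at hc
      exact (Nat.not_even_iff_odd.mpr hc') hc
    · exact hk
  refine core a b c' k ha hb hc' hk hab (Nat.Coprime.coprime_mul_left_right hac)
    (Nat.Coprime.coprime_mul_left_right hbc) h8 ?_ ?_ ?_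
  · intro p hp hpa
    have := h p hp (Dvd.dvd.mul_right (Dvd.dvd.mul_right hpa _) _)
    rw [add_assoc] at this
    exact (Nat.dvd_add_right hpa).mp this
  · intro p hp hpb
    have := h p hp (Dvd.dvd.mul_right (Dvd.dvd.mul_left hpb _) _)
    rw [show a + b + 2 ^ k * c' = b + (2 ^ k * c' + a) by ring] at this
    exact (Nat.dvd_add_right hpb).mp this
  · intro p hp hpc
    have hpc' : p ∣ 2 ^ k * c' := Dvd.dvd.mul_left hpc _
    have := h p hp (Dvd.dvd.mul_left hpc' _)
    exact (Nat.dvd_add_left hpc').mp this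

/-- Pairwise coprime positive integers with sum divisible by `8`. -/
theorem core'' (a b c : ℕ) (ha0 : 0 < a) (hb0 : 0 < b) (hc0 : 0 < c)
    (hab : Nat.Coprime a b) (hac : Nat.Coprime a c) (hbc : Nat.Coprime b c)
    (h8 : 8 ∣ a + b + c)
    (h : ∀ p : ℕ, p.Prime → p ∣ a * b * c → p ∣ a + b + c) : False := by
  have two : ∀ u v : ℕ, Nat.Coprime u v → u % 2 = 0 → v % 2 = 0 → False := by
    intro u v huv hu hv
    have := Nat.dvd_gcd (Nat.dvd_of_mod_eq_zero hu) (Nat.dvd_of_mod_eq_zero hv)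
    rw [huv] at this
    omega
  rcases Nat.mod_two_eq_zero_or_one a with h1 | h1
  · have h2 : b % 2 = 1 := by
      rcases Nat.mod_two_eq_zero_or_one b with h2 | h2
      · exact (two a b hab h1 h2).elim
      · exact h2
    have h3 : c % 2 = 1 := by
      rcases Nat.mod_two_eq_zero_or_one c with h3 | h3
      · exact (two a c hac h1 h3).elim
      · exact h3
    refine core' b c a (Nat.odd_iff.mpr h2) (Nat.odd_iff.mpr h3) (Nat.even_iff.mpr h1) ha0 hbc
      hab.symm hac.symm (by rw [show b + c + a = a + b + c by ring]; exact h8) ?_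
    intro p hp hpd
    rw [show b + c + a = a + b + c by ring]
    rw [show b * c * a = a * b * c by ring] at hpd
    exact h p hp hpd
  · rcases Nat.mod_two_eq_zero_or_one b with h2 | h2
    · have h3 : c % 2 = 1 := by
        rcases Nat.mod_two_eq_zero_or_one c with h3 | h3
        · exact (two b c hbc h2 h3).elim
        · exact h3
      refine core' a c b (Nat.odd_iff.mpr h1) (Nat.odd_iff.mpr h3) (Nat.even_iff.mpr h2) hb0 hac
        hab hbc.symm (by rw [show a + c + b = a + b + c by ring]; exact h8) ?_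
      intro p hp hpd
      rw [show a + c + b = a + b + c by ring]
      rw [show a * c * b = a * b * c by ring] at hpd
      exact h p hp hpd
    · have h3 : c % 2 = 0 := by omega
      exact core' a b c (Nat.odd_iff.mpr h1) (Nat.odd_iff.mpr h2) (Nat.even_iff.mpr h3) hc0 hab
        hac hbc h8 h

/-- The integral form of the equation has no solutions. -/
theorem no_nat_solution (n A : ℕ) (h4 : 4 ∣ n) :
    ∀ d a b c : ℕ, 0 < d → 0 < a → 0 < b → 0 < c → a + b + c = n * d →
      A * (a * b * c) = d ^ 3 → False := by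
  intro d
  induction d using Nat.strong_induction_on with
  | _ d ih =>
  intro a b c hd ha hb hc hs hp
  have hdiv : ∀ p : ℕ, p.Prime → p ∣ a * b * c → p ∣ d := by
    intro p pp hpd
    have : p ∣ d ^ 3 := by rw [← hp]; exact Dvd.dvd.mul_left hpd _
    exact pp.dvd_of_dvd_pow this
  have hdiv' : ∀ p : ℕ, p.Prime → p ∣ a * b * c → p ∣ a + b + c := by
    intro p pp hpd
    rw [hs]
    exact Dvd.dvd.mul_left (hdiv p pp hpd) _
  have hall : ∀ p : ℕ, p.Prime → p ∣ a → p ∣ b → p ∣ c → False := by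
    intro p pp h1 h2 h3
    have h0 : p ∣ d := hdiv p pp (Dvd.dvd.mul_left h3 _)
    obtain ⟨a', rfl⟩ := h1
    obtain ⟨b', rfl⟩ := h2
    obtain ⟨c', rfl⟩ := h3
    obtain ⟨d', rfl⟩ := h0
    have pp0 : 0 < p := pp.pos
    have hd' : 0 < d' := Nat.pos_of_mul_pos_left hd
    refine ih d' ?_ a' b' c' hd' (Nat.pos_of_mul_pos_left ha) (Nat.pos_of_mul_pos_left hb)
      (Nat.pos_of_mul_pos_left hc) ?_ ?_
    · exact (Nat.lt_mul_iff_one_lt_left hd').mpr pp.one_lt
    · apply Nat.eq_of_mul_eq_mul_left pp0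
      linarith
    · apply Nat.eq_of_mul_eq_mul_left (pow_pos pp0 3)
      linarith
  have cop : ∀ u v w : ℕ, (∀ p : ℕ, p.Prime → p ∣ u * v * w → p ∣ u + v + w) →
      (∀ p : ℕ, p.Prime → p ∣ u → p ∣ v → p ∣ w → False) → Nat.Coprime u v := by
    intro u v w h1 h2
    by_contra hne
    obtain ⟨p, pp, hpu, hpv⟩ := Nat.Prime.not_coprime_iff_dvd.mp hne
    have h3 := h1 p pp (Dvd.dvd.mul_right (Dvd.dvd.mul_right hpu _) _)
    exact h2 p pp hpu hpv ((Nat.dvd_add_right (dvd_add hpu hpv)).mp h3)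
  have hab : Nat.Coprime a b := cop a b c hdiv' hall
  have hac : Nat.Coprime a c := cop a c b
    (fun p pp h => by
      rw [show a + c + b = a + b + c by ring]
      exact hdiv' p pp (by rw [show a * b * c = a * c * b by ring]; exact h))
    (fun p pp h1 h2 h3 => hall p pp h1 h3 h2)
  have hbc : Nat.Coprime b c := cop b c a
    (fun p pp h => by
      rw [show b + c + a = a + b + c by ring]
      exact hdiv' p pp (by rw [show a * b * c = b * c * a by ring]; exact h))
    (fun p pp h1 h2 h3 => hall p pp h3 h1 h2)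
  have hd2 : 2 ∣ d := by
    by_contra hd2
    have hodd : Odd d := Nat.odd_iff.mpr (by omega)
    have h3 : Odd (d ^ 3) := hodd.pow
    rw [← hp, Nat.odd_mul, Nat.odd_mul, Nat.odd_mul] at h3
    obtain ⟨-, ⟨h5, h6⟩, h7⟩ := h3
    have h8 : 4 ∣ a + b + c := by rw [hs]; exact Dvd.dvd.mul_right h4 _
    rw [Nat.odd_iff] at h5 h6 h7
    omega
  have h8 : 8 ∣ a + b + c := by
    rw [hs]
    exact mul_dvd_mul h4 hd2
  exact core'' a b c ha hb hc hab hac hbc h8 hdiv'

/-- For no positive integer `n` divisible by `4` is there a positive integer `A` for which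
`n = x + y + z`, `xyz = 1 / A` is solvable in positive rationals: `A(n)` does not exist for
any `n` divisible by `4`; in particular `A(4)` does not exist. -/
theorem result (n : ℕ) (hn : 0 < n) (h4 : 4 ∣ n) :
    ¬ ∃ A : ℕ, 0 < A ∧ ∃ x y z : ℚ, 0 < x ∧ 0 < y ∧ 0 < z ∧
      (n : ℚ) = x + y + z ∧ x * y * z = 1 / (A : ℚ) := by
  rintro ⟨A, hA, x, y, z, hx, hy, hz, hs, hp⟩
  have hxn : 0 < x.num := Rat.num_pos.mpr hx
  have hyn : 0 < y.num := Rat.num_pos.mpr hy
  have hzn : 0 < z.num := Rat.num_pos.mpr hz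
  obtain ⟨a, ha⟩ := Int.eq_ofNat_of_zero_le hxn.le
  obtain ⟨b, hb⟩ := Int.eq_ofNat_of_zero_le hyn.le
  obtain ⟨c, hc⟩ := Int.eq_ofNat_of_zero_le hzn.le
  have hxd : 0 < x.den := x.den_pos
  have hyd : 0 < y.den := y.den_pos
  have hzd : 0 < z.den := z.den_pos
  have ha0 : 0 < a := by omega
  have hb0 : 0 < b := by omega
  have hc0 : 0 < c := by omega
  have ex : x = (a : ℚ) / x.den := by
    conv_lhs => rw [← Rat.num_div_den x]
    rw [ha]; simp
  have ey : y = (b : ℚ) / y.den := by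
    conv_lhs => rw [← Rat.num_div_den y]
    rw [hb]; simp
  have ez : z = (c : ℚ) / z.den := by
    conv_lhs => rw [← Rat.num_div_den z]
    rw [hc]; simp
  generalize x.den = u at *
  generalize y.den = v at *
  generalize z.den = w at *
  have hu : (u : ℚ) ≠ 0 := by exact_mod_cast hxd.ne'
  have hv : (v : ℚ) ≠ 0 := by exact_mod_cast hyd.ne'
  have hw : (w : ℚ) ≠ 0 := by exact_mod_cast hzd.ne'
  have hA' : (A : ℚ) ≠ 0 := by exact_mod_cast hA.ne'
  refine no_nat_solution n A h4 (u * v * w) (a * v * w) (b * u * w) (c * u * v)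
    (by positivity) (by positivity) (by positivity) (by positivity) ?_ ?_
  · have : ((a * v * w + b * u * w + c * u * v : ℕ) : ℚ) = ((n * (u * v * w) : ℕ) : ℚ) := by
      push_cast
      rw [hs, ex, ey, ez]
      field_simp
    exact_mod_cast this
  · have : ((A * (a * v * w * (b * u * w) * (c * u * v)) : ℕ) : ℚ) = (((u * v * w) ^ 3 : ℕ) : ℚ) := by
      push_cast
      rw [ex, ey, ez] at hp
      field_simp at hp
      linear_combination (u * v * w : ℚ) ^ 2 * hp
    exact_mod_cast this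

end Pool.Agent.Results.MP_1d631c_nt.NoRepresentation
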